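import Mathlib
import Pool.Agent.Q115.Quasi

set_option autoImplicit false

/-!
# Graphs with many edges and no quasiregular subgraph

For all `C`, `k ≥ 2` and `F` there is a graph with `n` vertices and at least `F n` edges in which
no subgraph has all its degrees strictly between `k` and `C k`.
-/

namespace Pool.Agent.Results.MP_78fef3_co.NoQuasiregular

open Finset

/-- A subgraph `H` of `G` is `(k, C)`-quasiregular if it has a vertex and every vertex `v` of `H`
has degree (inside `H`) strictly between `k` and `C k`. -/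
def Quasiregular {V : Type} {G : SimpleGraph V} (k : ℕ) (C : ℝ) (H : G.Subgraph) : Prop :=
  H.verts.Nonempty ∧ ∀ v ∈ H.verts,
    (k : ℝ) < ((H.neighborSet v).ncard : ℝ) ∧ ((H.neighborSet v).ncard : ℝ) < C * k

/-- The bipartite graph of a family of functions: `a` is joined to `g i a` for every level `i`. -/
def Gr {F n : ℕ} {β : Fin F → ℕ} (g : ∀ i : Fin F, Fin n → Fin (β i)) :
    SimpleGraph (Fin n ⊕ (Σ i : Fin F, Fin (β i))) where
  Adj x y := ∃ (a : Fin n) (i : Fin F), (x = Sum.inl a ∧ y = Sum.inr ⟨i, g i a⟩) ∨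
    (y = Sum.inl a ∧ x = Sum.inr ⟨i, g i a⟩)
  symm := ⟨by
    rintro x y ⟨a, i, h⟩
    exact ⟨a, i, h.symm⟩⟩
  loopless := ⟨by
    rintro x ⟨a, i, ⟨h1, h2⟩ | ⟨h1, h2⟩⟩
    · rw [h1] at h2
      cases h2
    · rw [h1] at h2
      cases h2⟩

theorem adj_inl {F n : ℕ} {β : Fin F → ℕ} (g : ∀ i : Fin F, Fin n → Fin (β i)) (a : Fin n)
    (y : Fin n ⊕ (Σ i : Fin F, Fin (β i))) (h : (Gr g).Adj (Sum.inl a) y) :
    ∃ i, y = Sum.inr ⟨i, g i a⟩ := by
  obtain ⟨b, i, ⟨h1, h2⟩ | ⟨h1, h2⟩⟩ := h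
  · rw [Sum.inl.injEq] at h1
    subst h1
    exact ⟨i, h2⟩
  · cases h2

theorem adj_inr {F n : ℕ} {β : Fin F → ℕ} (g : ∀ i : Fin F, Fin n → Fin (β i)) (i : Fin F)
    (b : Fin (β i)) (y : Fin n ⊕ (Σ i : Fin F, Fin (β i))) (h : (Gr g).Adj (Sum.inr ⟨i, b⟩) y) :
    ∃ a, y = Sum.inl a ∧ g i a = b := by
  obtain ⟨a, j, ⟨h1, h2⟩ | ⟨h1, h2⟩⟩ := h
  · cases h1
  · rw [Sum.inr.injEq, Sigma.mk.injEq] at h2
    obtain ⟨h3, h4⟩ := h2
    subst h3
    exact ⟨a, h1, (eq_of_heq h4).symm⟩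

theorem edges_lower {F n : ℕ} {β : Fin F → ℕ} (g : ∀ i : Fin F, Fin n → Fin (β i)) :
    F * n ≤ (Gr g).edgeSet.ncard := by
  have h1 : ((fun x : Fin F × Fin n =>
      s((Sum.inl x.2 : Fin n ⊕ (Σ i : Fin F, Fin (β i))), Sum.inr ⟨x.1, g x.1 x.2⟩)) ''
      Set.univ) ⊆ (Gr g).edgeSet := by
    rintro _ ⟨x, _, rfl⟩
    rw [SimpleGraph.mem_edgeSet]
    exact ⟨x.2, x.1, Or.inl ⟨rfl, rfl⟩⟩
  have h2 := Set.ncard_le_ncard h1 (Set.toFinite _)
  rw [Set.ncard_image_of_injective, Set.ncard_univ, Nat.card_eq_fintype_card,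
    Fintype.card_prod, Fintype.card_fin, Fintype.card_fin] at h2
  · exact h2
  · rintro ⟨i, a⟩ ⟨j, b⟩ h
    rw [Sym2.eq_iff] at h
    rcases h with ⟨h3, h4⟩ | ⟨h3, h4⟩
    · rw [Sum.inl.injEq] at h3
      rw [Sum.inr.injEq, Sigma.mk.injEq] at h4
      exact Prod.ext h4.1 h3
    · cases h3

theorem bad_of_quasi {F n : ℕ} {β : Fin F → ℕ} (g : ∀ i : Fin F, Fin n → Fin (β i)) (Δ : ℕ)
    (H : (Gr g).Subgraph) (hne : H.verts.Nonempty)
    (hlow : ∀ v ∈ H.verts, 3 ≤ (H.neighborSet v).ncard)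
    (hup : ∀ v ∈ H.verts, (H.neighborSet v).ncard ≤ Δ) : Q115.Quasi.Bad Δ β g := by
  classical
  have hfib : ∀ (i : Fin F), ∀ b ∈ (univ.filter (fun a => H.Adj (Sum.inl a)
      (Sum.inr ⟨i, g i a⟩))).image (g i), (Sum.inr ⟨i, b⟩ : Fin n ⊕ (Σ i : Fin F, Fin (β i))) ∈
        H.verts ∧ ((univ.filter (fun a => H.Adj (Sum.inl a) (Sum.inr ⟨i, g i a⟩))).filter
        (fun a => g i a = b)).card = (H.neighborSet (Sum.inr ⟨i, b⟩)).ncard := by
    intro i b hb
    rw [mem_image] at hb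
    obtain ⟨a, ha, hab⟩ := hb
    rw [mem_filter] at ha
    refine ⟨?_, ?_⟩
    · rw [← hab]
      exact H.edge_vert ha.2.symm
    · have h1 : H.neighborSet (Sum.inr ⟨i, b⟩) = (Sum.inl : Fin n → _) ''
          (((univ.filter (fun a => H.Adj (Sum.inl a) (Sum.inr ⟨i, g i a⟩))).filter
            (fun a => g i a = b) : Finset (Fin n)) : Set (Fin n)) := by
        ext y
        constructor
        · intro hy
          have hy' : H.Adj (Sum.inr ⟨i, b⟩) y := hy
          obtain ⟨a', hya, hga⟩ := adj_inr g i b y hy'.adj_sub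
          refine ⟨a', ?_, hya.symm⟩
          rw [Finset.mem_coe, mem_filter, mem_filter]
          refine ⟨⟨mem_univ _, ?_⟩, hga⟩
          rw [hga, ← hya]
          exact hy'.symm
        · rintro ⟨a', ha', rfl⟩
          rw [Finset.mem_coe, mem_filter, mem_filter] at ha'
          change H.Adj (Sum.inr ⟨i, b⟩) (Sum.inl a')
          rw [← ha'.2]
          exact ha'.1.2.symm
      rw [h1, Set.ncard_image_of_injective _ Sum.inl_injective, Set.ncard_coe_finset]
  refine ⟨univ.filter (fun a => Sum.inl a ∈ H.verts),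
    fun i => univ.filter (fun a => H.Adj (Sum.inl a) (Sum.inr ⟨i, g i a⟩)), ?_, ?_, ?_, ?_, ?_⟩
  · obtain ⟨v, hv⟩ := hne
    rcases v with a | ⟨i, b⟩
    · exact ⟨a, mem_filter.mpr ⟨mem_univ _, hv⟩⟩
    · have h1 := hlow _ hv
      have h2 : (H.neighborSet (Sum.inr ⟨i, b⟩)).Nonempty := by
        rw [← Set.ncard_pos (Set.toFinite _)]
        omega
      obtain ⟨y, hy⟩ := h2
      have hy' : H.Adj (Sum.inr ⟨i, b⟩) y := hy
      obtain ⟨a', hya, _⟩ := adj_inr g i b y hy'.adj_sub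
      refine ⟨a', mem_filter.mpr ⟨mem_univ _, ?_⟩⟩
      rw [← hya]
      exact H.edge_vert hy'.symm
  · intro i a ha
    rw [mem_filter] at ha ⊢
    exact ⟨mem_univ _, H.edge_vert ha.2⟩
  · intro i
    apply Finset.mul_card_image_le_card
    intro b hb
    obtain ⟨h1, h2⟩ := hfib i b hb
    rw [h2]
    exact hlow _ h1
  · intro i
    refine (Finset.card_le_mul_card_image (f := g i) _ Δ ?_).trans ?_
    · intro b hb
      obtain ⟨h1, h2⟩ := hfib i b hb
      rw [h2]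
      exact hup _ h1
    · apply Nat.mul_le_mul_left
      have := Finset.card_le_univ ((univ.filter (fun a => H.Adj (Sum.inl a)
        (Sum.inr ⟨i, g i a⟩))).image (g i))
      rwa [Fintype.card_fin] at this
  · have h1 : ∑ i : Fin F, (univ.filter (fun a => H.Adj (Sum.inl a)
        (Sum.inr ⟨i, g i a⟩))).card = ∑ a : Fin n, (univ.filter (fun i : Fin F =>
          H.Adj (Sum.inl a) (Sum.inr ⟨i, g i a⟩))).card := by
      simp only [Finset.card_filter]
      exact Finset.sum_comm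
    rw [h1, mul_comm, ← smul_eq_mul]
    have h2 : ∀ a ∈ univ.filter (fun a : Fin n => Sum.inl a ∈ H.verts),
        3 ≤ (univ.filter (fun i : Fin F => H.Adj (Sum.inl a) (Sum.inr ⟨i, g i a⟩))).card := by
      intro a ha
      rw [mem_filter] at ha
      refine (hlow _ ha.2).trans ?_
      have h3 : H.neighborSet (Sum.inl a) ⊆ (fun i : Fin F =>
          (Sum.inr ⟨i, g i a⟩ : Fin n ⊕ (Σ i : Fin F, Fin (β i)))) ''
          ((univ.filter (fun i : Fin F => H.Adj (Sum.inl a) (Sum.inr ⟨i, g i a⟩)) :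
            Finset (Fin F)) : Set (Fin F)) := by
        intro y hy
        have hy' : H.Adj (Sum.inl a) y := hy
        obtain ⟨i, hi⟩ := adj_inl g a y hy'.adj_sub
        refine ⟨i, ?_, hi.symm⟩
        rw [Finset.mem_coe, mem_filter]
        refine ⟨mem_univ _, ?_⟩
        rw [← hi]
        exact hy'
      refine (Set.ncard_le_ncard h3 (Set.toFinite _)).trans ?_
      refine (Set.ncard_image_le (Set.toFinite _)).trans ?_
      rw [Set.ncard_coe_finset]
    refine (Finset.card_nsmul_le_sum _ _ _ h2).trans ?_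
    exact Finset.sum_le_sum_of_subset (Finset.filter_subset _ _)

/-- For all `C`, all `k ≥ 2` and all `F` there is a (nonempty) finite graph with at least `F`
times as many edges as vertices and without a `(k, C)`-quasiregular subgraph. -/
theorem result : ∀ (C : ℝ) (k : ℕ), 2 ≤ k → ∀ F : ℝ,
    ∃ (V : Type) (_ : Fintype V) (_ : Nonempty V) (G : SimpleGraph V),
      F * (Fintype.card V : ℝ) ≤ (G.edgeSet.ncard : ℝ) ∧
      ∀ H : G.Subgraph, ¬ Quasiregular k C H := by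
  intro C k hk F
  obtain ⟨F1, hF1⟩ := exists_nat_gt (2 * F)
  obtain ⟨Δ, hΔ⟩ := exists_nat_gt (C * k)
  obtain ⟨n, β, g, hn, hβ, hg⟩ := Q115.Quasi.exists_good (F1 + 1) (Δ + 1) (by omega) (by omega)
  refine ⟨Fin n ⊕ (Σ i : Fin (F1 + 1), Fin (β i)), inferInstance, ⟨Sum.inl ⟨0, hn⟩⟩, Gr g, ?_, ?_⟩
  · have h1 := edges_lower g
    have h2 : Fintype.card (Fin n ⊕ (Σ i : Fin (F1 + 1), Fin (β i))) ≤ 2 * n := by
      rw [Fintype.card_sum, Fintype.card_fin, Fintype.card_sigma]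
      simp only [Fintype.card_fin]
      have h3 : ∑ i : Fin (F1 + 1), (F1 + 1) * β i ≤ (univ : Finset (Fin (F1 + 1))).card • n :=
        Finset.sum_le_card_nsmul _ _ _ (fun i _ => hβ i)
      rw [Finset.card_univ, Fintype.card_fin, smul_eq_mul, ← Finset.mul_sum] at h3
      have h4 := le_of_mul_le_mul_left h3 (by omega)
      omega
    have h3 : ((F1 + 1 : ℕ) : ℝ) * n ≤ ((Gr g).edgeSet.ncard : ℝ) := by exact_mod_cast h1
    have h4 : (Fintype.card (Fin n ⊕ (Σ i : Fin (F1 + 1), Fin (β i))) : ℝ) ≤ 2 * n := by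
      exact_mod_cast h2
    have h5 : (0 : ℝ) ≤ Fintype.card (Fin n ⊕ (Σ i : Fin (F1 + 1), Fin (β i))) :=
      Nat.cast_nonneg _
    refine le_trans ?_ h3
    have h6 : 2 * F ≤ F1 := hF1.le
    push_cast
    have h7 : F * (Fintype.card (Fin n ⊕ (Σ i : Fin (F1 + 1), Fin (β i))) : ℝ) ≤
        (F1 / 2) * (Fintype.card (Fin n ⊕ (Σ i : Fin (F1 + 1), Fin (β i))) : ℝ) :=
      mul_le_mul_of_nonneg_right (by linarith) h5
    have h8 : ((F1 : ℝ) / 2) * (Fintype.card (Fin n ⊕ (Σ i : Fin (F1 + 1), Fin (β i))) : ℝ) ≤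
        (F1 / 2) * (2 * n) := mul_le_mul_of_nonneg_left h4 (by positivity)
    have h9 : (0 : ℝ) ≤ n := Nat.cast_nonneg _
    linarith
  · rintro H ⟨hne, hH⟩
    apply hg
    apply bad_of_quasi g (Δ + 1) H hne
    · intro v hv
      have h1 := (hH v hv).1
      have h2 : k < (H.neighborSet v).ncard := by exact_mod_cast h1
      omega
    · intro v hv
      have h1 := (hH v hv).2
      have h2 : ((H.neighborSet v).ncard : ℝ) < Δ := h1.trans hΔ
      have h3 : (H.neighborSet v).ncard < Δ := by exact_mod_cast h2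
      omega

end Pool.Agent.Results.MP_78fef3_co.NoQuasiregular
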